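import Pool.Agent.Run7.h95.NT.Rat

/-!
# The invariants of the curves with full rational 2-torsion
-/

set_option autoImplicit false

namespace Run7.h95.SZ

open Polynomial Filter Topology Run7.h95.NT

/-- all points of order two are rational -/
def FullT (W : WeierstrassCurve ℤ) : Prop :=
  ∃ r₁ r₂ r₃ : ℚ, ∀ x : ℚ,
    4 * x ^ 3 + W.b₂ * x ^ 2 + 2 * W.b₄ * x + W.b₆ = 4 * (x - r₁) * (x - r₂) * (x - r₃)

theorem fullT_invariants (W : WeierstrassCurve ℤ) (hT : FullT W) :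
    ∃ r₁ r₂ r₃ : ℚ, (W.c₄ : ℚ) = 16 * (r₁ ^ 2 + r₂ ^ 2 + r₃ ^ 2 - r₁ * r₂ - r₁ * r₃ - r₂ * r₃) ∧
      (W.c₆ : ℚ) = -32 * ((r₁ + r₂ - 2 * r₃) * (r₁ + r₃ - 2 * r₂) * (r₂ + r₃ - 2 * r₁)) ∧
      (W.Δ : ℚ) = 16 * ((r₁ - r₂) * (r₁ - r₃) * (r₂ - r₃)) ^ 2 := by
  obtain ⟨r₁, r₂, r₃, h⟩ := hT
  have e0 := h 0
  have e1 := h 1
  have e2 := h (-1)
  have hb6 : (W.b₆ : ℚ) = -4 * (r₁ * r₂ * r₃) := by linear_combination e0
  have hb2 : (W.b₂ : ℚ) = -4 * (r₁ + r₂ + r₃) := by linear_combination (e1 + e2) / 2 - e0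
  have hb4 : (W.b₄ : ℚ) = 2 * (r₁ * r₂ + r₁ * r₃ + r₂ * r₃) := by
    linear_combination (e1 - e2) / 4
  have hb8 : 4 * (W.b₈ : ℚ) = W.b₂ * W.b₆ - (W.b₄ : ℚ) ^ 2 := by exact_mod_cast W.b_relation
  have hc4 : (W.c₄ : ℚ) = (W.b₂ : ℚ) ^ 2 - 24 * W.b₄ := by
    unfold WeierstrassCurve.c₄
    push_cast
    ring
  have hc6 : (W.c₆ : ℚ) = -(W.b₂ : ℚ) ^ 3 + 36 * W.b₂ * W.b₄ - 216 * W.b₆ := by
    unfold WeierstrassCurve.c₆
    push_cast
    ring
  have hD : (W.Δ : ℚ) = -(W.b₂ : ℚ) ^ 2 * W.b₈ - 8 * (W.b₄ : ℚ) ^ 3 - 27 * (W.b₆ : ℚ) ^ 2 +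
      9 * W.b₂ * W.b₄ * W.b₆ := by
    unfold WeierstrassCurve.Δ
    push_cast
    ring
  have hb8' : (W.b₈ : ℚ) = (W.b₂ * W.b₆ - (W.b₄ : ℚ) ^ 2) / 4 := by linarith
  refine ⟨r₁, r₂, r₃, ?_, ?_, ?_⟩
  · rw [hc4, hb2, hb4]
    ring
  · rw [hc6, hb2, hb4, hb6]
    ring
  · rw [hD, hb8', hb2, hb4, hb6]
    ring

/-- the numerator of the function for full 2-torsion -/
noncomputable def P₂ : ℚ[X] := C 64 * (C 3 * X ^ 2 + 1) ^ 3

/-- the poles of the function for full 2-torsion -/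
def r₂ : Fin 3 → ℚ := ![0, 1, -1]

/-- their orders -/
def e₂ : Fin 3 → ℕ := ![2, 2, 2]

theorem r₂_inj : Function.Injective r₂ := by
  intro i j h
  fin_cases i <;> fin_cases j <;> simp_all [r₂] <;> norm_num at h

theorem P₂_deg : P₂.natDegree ≤ 6 := by
  unfold P₂
  refine (natDegree_C_mul_le _ _).trans (natDegree_pow_le.trans ?_)
  have h1 : (C (3 : ℚ) * X ^ 2 + 1 : ℚ[X]).natDegree ≤ 2 := by
    refine (natDegree_add_le _ _).trans (max_le ?_ ?_)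
    · refine (natDegree_C_mul_le _ _).trans ?_
      rw [natDegree_X_pow]
    · rw [natDegree_one]
      omega
  omega

theorem P₂_coeff : P₂.coeff 6 = 1728 := by
  have h1 : P₂ = C 1728 * X ^ 6 + C 1728 * X ^ 4 + C 576 * X ^ 2 + C 64 := by
    unfold P₂
    have e1 : (C (1728 : ℚ) : ℚ[X]) = C 64 * C 3 ^ 3 := by
      rw [← C_pow, ← C_mul]
      norm_num
    have e2 : (C (576 : ℚ) : ℚ[X]) = C 64 * C 3 * 3 := by
      rw [← C_mul, show (3 : ℚ[X]) = C 3 from rfl, ← C_mul]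
      norm_num
    have e3 : (C (1728 : ℚ) : ℚ[X]) = C 64 * C 3 ^ 2 * 3 := by
      rw [← C_pow, ← C_mul, show (3 : ℚ[X]) = C 3 from rfl, ← C_mul]
      norm_num
    nth_rewrite 1 [e1]
    rw [e3, e2]
    ring
  rw [h1]
  simp [coeff_X_pow]

/-- the invariants of the curves with full rational 2-torsion -/
theorem fullT_value (W : WeierstrassCurve ℤ) (hT : FullT W) (hΔ : W.Δ ≠ 0) :
    ∃ x : Option ℚ, (∀ l, x ≠ some (r₂ l)) ∧ J P₂ r₂ e₂ x = ((W.c₄ : ℚ) ^ 3 / W.Δ) := by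
  obtain ⟨a, b, c, h4, h6, hD⟩ := fullT_invariants W hT
  have hDQ : (W.Δ : ℚ) ≠ 0 := by exact_mod_cast hΔ
  have hne : (a - b) * (a - c) * (b - c) ≠ 0 := by
    intro h
    rw [h] at hD
    exact hDQ (by rw [hD]; ring)
  have hab : a - b ≠ 0 := fun h => hne (by rw [h]; ring)
  have hac : a - c ≠ 0 := fun h => hne (by rw [h]; ring)
  have hbc : b - c ≠ 0 := fun h => hne (by rw [h]; ring)
  have hj : ((W.c₄ : ℚ) ^ 3 / W.Δ) = 256 * (a ^ 2 + b ^ 2 + c ^ 2 - a * b - a * c - b * c) ^ 3 /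
      ((a - b) * (a - c) * (b - c)) ^ 2 := by
    rw [h4, hD]
    field_simp
    ring
  by_cases hd : 2 * b - a - c = 0
  · refine ⟨none, fun l => by simp, ?_⟩
    have h1 : J P₂ r₂ e₂ none = 1728 := by
      show P₂.coeff (∑ l, e₂ l) = 1728
      have : ∑ l, e₂ l = 6 := by simp [e₂, Fin.sum_univ_three]
      rw [this, P₂_coeff]
    rw [h1, hj]
    have hc : c = 2 * b - a := by linear_combination -hd
    rw [eq_div_iff (pow_ne_zero _ hne), hc]
    ring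
  · have hx0 : (c - a) / (2 * b - a - c) ≠ 0 := div_ne_zero (fun h => hac (by linear_combination -h)) hd
    have hx1 : (c - a) / (2 * b - a - c) - 1 ≠ 0 := by
      rw [div_sub_one hd]
      exact div_ne_zero (fun h => hbc (by linear_combination -h / 2)) hd
    have hx2 : (c - a) / (2 * b - a - c) + 1 ≠ 0 := by
      rw [div_add_one hd]
      exact div_ne_zero (fun h => hab (by linear_combination -h / 2)) hd
    refine ⟨some ((c - a) / (2 * b - a - c)), ?_, ?_⟩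
    · intro l h
      have h' := Option.some.inj h
      fin_cases l
      · exact hx0 h'
      · exact hx1 (by rw [h']; simp [r₂])
      · exact hx2 (by rw [h']; simp [r₂])
    · show P₂.eval ((c - a) / (2 * b - a - c)) /
        ∏ l, ((c - a) / (2 * b - a - c) - r₂ l) ^ e₂ l = ((W.c₄ : ℚ) ^ 3 / W.Δ)
      have e0 : P₂.eval ((c - a) / (2 * b - a - c)) =
          64 * (3 * ((c - a) / (2 * b - a - c)) ^ 2 + 1) ^ 3 := by
        unfold P₂
        simp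
      have e1 : ∏ l, ((c - a) / (2 * b - a - c) - r₂ l) ^ e₂ l =
          ((c - a) / (2 * b - a - c)) ^ 2 * ((c - a) / (2 * b - a - c) - 1) ^ 2 *
            ((c - a) / (2 * b - a - c) + 1) ^ 2 := by
        simp [r₂, e₂, Fin.prod_univ_three]
      rw [e0, e1, hj, div_eq_div_iff (by positivity) (pow_ne_zero _ hne)]
      field_simp
      ring

end Run7.h95.SZ
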